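import Mathlib
import Pool.Agent.MP_057cde_lc.zf.Final

/-!
In every model `(M, E)` of ZF + DC + Turing determinacy every set of reals has the perfect set
property.
-/

namespace Pool.Agent.Results.MP_057cde_lc.AllModels

open Pool.Agent.MP_057cde_lc.TZ

theorem result (M : Type) (E : M → M → Prop) (hZF : ZF E) (w : M) (hw : Omega E w) (hDC : DC E w)
    (hTD : TD E w) (A : M) (hA : ∀ x, E x A → Incl E x w) :
    Ctbl E w A ∨ ∃ P, Incl E P A ∧ Perf E w P :=
  @psp M ⟨E, hZF, w, hw, hDC⟩ hTD A hA

end Pool.Agent.Results.MP_057cde_lc.AllModels
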