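import Mathlib
import Pool.Agent.MP_057cde_lc.h75.Final

/-!
Turing determinacy for a point class gives the perfect set property for every set in the class.
-/

namespace Pool.Agent.Results.MP_057cde_lc.PerfectSet

open Pool.Agent.MP_057cde_lc

theorem result (Γ : Set (Set Cantor)) (hΓ : PointClass Γ) (hTD : TD Γ) (A : Set Cantor)
    (hA : A ∈ Γ) : A.Countable ∨ ∃ P ⊆ A, Perfect P ∧ P.Nonempty :=
  H75.psp hΓ hTD hA

end Pool.Agent.Results.MP_057cde_lc.PerfectSet
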