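import Mathlib
import Pool.Agent.MP_057cde_lc.Unif

/-!
Turing determinacy for a point class gives continuous uniformization on a set that meets every
perfect subset of some perfect set.
-/

namespace Pool.Agent.Results.MP_057cde_lc.WeakUniformization

open Pool.Agent.MP_057cde_lc

theorem result (Γ : Set (Set Cantor)) (hΓ : PointClass Γ) (hTD : TD Γ) (R : Set Cantor)
    (hR : R ∈ Γ) (hA : ¬ {y | ∃ u, oplus y u ∈ R}.Countable) :
    ∃ K : Set Cantor, Perfect K ∧ K.Nonempty ∧ ∃ h : Cantor → Cantor, ContinuousOn h K ∧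
      ∀ Q ⊆ K, Perfect Q → Q.Nonempty → ∃ y ∈ Q, oplus y (h y) ∈ R := by
  simp only [oplus_eq_join] at *
  exact uniformization hΓ hTD hR hA

end Pool.Agent.Results.MP_057cde_lc.WeakUniformization
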